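import Pool.Agent.K1H27.PL.Stm2

/-!
# Project PL (MP_5ac32f_an), piece RADO: Rado's theorem from the Caccioppoli inequality and Morera
-/

set_option autoImplicit false

namespace Pool.Agent.K1H59.PL.Rado

open MeasureTheory Set Metric Filter Topology Complex
open scoped ENNReal NNReal Interval
open Pool.Agent.K1H27.PL

/-- the derivative of the smooth transition is bounded -/
theorem deriv_bdd : ∃ C : ℝ, 0 ≤ C ∧ (∀ t, |deriv Real.smoothTransition t| ≤ C) ∧
    (∀ t, t < 0 → deriv Real.smoothTransition t = 0) ∧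
    ∀ t, 1 < t → deriv Real.smoothTransition t = 0 := by
  have h0 : ∀ t : ℝ, t < 0 → deriv Real.smoothTransition t = 0 := by
    intro t ht
    have : Real.smoothTransition =ᶠ[𝓝 t] fun _ => (0 : ℝ) := by
      filter_upwards [Iio_mem_nhds ht] with s hs
      exact Real.smoothTransition.zero_of_nonpos (le_of_lt hs)
    rw [this.deriv_eq]
    simp
  have h1 : ∀ t : ℝ, 1 < t → deriv Real.smoothTransition t = 0 := by
    intro t ht
    have : Real.smoothTransition =ᶠ[𝓝 t] fun _ => (1 : ℝ) := by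
      filter_upwards [Ioi_mem_nhds ht] with s hs
      exact Real.smoothTransition.one_of_one_le (le_of_lt hs)
    rw [this.deriv_eq]
    simp
  have hc : Continuous (deriv Real.smoothTransition) :=
    (Real.smoothTransition.contDiff (n := 1)).continuous_deriv le_rfl
  obtain ⟨C, hC⟩ := (isCompact_Icc (a := (0 : ℝ)) (b := 1)).exists_bound_of_continuousOn
    hc.continuousOn
  refine ⟨max C 0, le_max_right _ _, fun t => ?_, h0, h1⟩
  by_cases ht : t ∈ Icc (0 : ℝ) 1
  · exact (hC t ht).trans (le_max_left _ _)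
  · have : deriv Real.smoothTransition t = 0 := by
      rw [mem_Icc, not_and_or, not_le, not_le] at ht
      rcases ht with ht | ht
      · exact h0 t ht
      · exact h1 t ht
    rw [this, abs_zero]
    exact le_max_right _ _

/-- the cut function -/
noncomputable def chi (δ : ℝ) (w : ℂ) : ℂ :=
  Real.smoothTransition ((‖w‖ ^ 2 - δ) / (3 * δ)) • w

theorem chi_zero {δ : ℝ} (hδ : 0 < δ) {w : ℂ} (hw : ‖w‖ ^ 2 ≤ δ) : chi δ w = 0 := by
  unfold chi
  rw [Real.smoothTransition.zero_of_nonpos, zero_smul]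
  apply div_nonpos_of_nonpos_of_nonneg <;> linarith

theorem chi_self {δ : ℝ} (hδ : 0 < δ) {w : ℂ} (hw : 4 * δ ≤ ‖w‖ ^ 2) : chi δ w = w := by
  unfold chi
  rw [Real.smoothTransition.one_of_one_le, one_smul]
  rw [le_div_iff₀ (by linarith)]
  linarith

theorem norm_chi_le (δ : ℝ) (w : ℂ) : ‖chi δ w‖ ≤ ‖w‖ := by
  unfold chi
  rw [norm_smul, Real.norm_eq_abs, abs_of_nonneg (Real.smoothTransition.nonneg _)]
  have := Real.smoothTransition.le_one ((‖w‖ ^ 2 - δ) / (3 * δ))
  nlinarith [norm_nonneg w]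

theorem continuous_chi {δ : ℝ} : Continuous (chi δ) := by
  unfold chi
  refine Continuous.smul (Real.smoothTransition.continuous.comp ?_) continuous_id
  fun_prop

theorem tendsto_chi (w : ℂ) : Tendsto (fun n : ℕ => chi (1 / ((n : ℝ) + 1)) w) atTop (𝓝 w) := by
  by_cases hw : w = 0
  · subst hw
    have : ∀ n : ℕ, chi (1 / ((n : ℝ) + 1)) 0 = 0 := fun n => by simp [chi]
    simp_rw [this]
    exact tendsto_const_nhds
  · have h1 : Tendsto (fun n : ℕ => 4 * (1 / ((n : ℝ) + 1))) atTop (𝓝 (4 * 0)) :=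
      tendsto_one_div_add_atTop_nhds_zero_nat.const_mul 4
    rw [mul_zero] at h1
    have h2 : (0 : ℝ) < ‖w‖ ^ 2 := by positivity
    have h3 := h1.eventually (gt_mem_nhds h2)
    refine tendsto_const_nhds.congr' ?_
    filter_upwards [h3] with n hn
    exact (chi_self (by positivity) (le_of_lt hn)).symm

/-- the real derivative of the cut function along a holomorphic function -/
theorem grad {C : ℝ} (hC : (∀ t, |deriv Real.smoothTransition t| ≤ C) ∧
    (∀ t, t < 0 → deriv Real.smoothTransition t = 0) ∧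
    ∀ t, 1 < t → deriv Real.smoothTransition t = 0) {δ : ℝ} (hδ : 0 < δ) {f : ℂ → ℂ} {z f' : ℂ}
    (hf : HasDerivAt f f' z) :
    DifferentiableAt ℝ (fun y => chi δ (f y)) z ∧
    ‖I • fderiv ℝ (fun y => chi δ (f y)) z 1 - fderiv ℝ (fun y => chi δ (f y)) z I‖ ≤
      8 / 3 * C * ‖f'‖ ∧
    (4 * δ < ‖f z‖ ^ 2 →
      ‖I • fderiv ℝ (fun y => chi δ (f y)) z 1 - fderiv ℝ (fun y => chi δ (f y)) z I‖ = 0) := by
  have hC0 : 0 ≤ C := (abs_nonneg _).trans (hC.1 0)
  have hfR := hf.hasFDerivAt.restrictScalars ℝ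
  have hsq := hfR.norm_sq
  set σ := Real.smoothTransition with hσ
  set g : ℂ → ℝ := fun y => (‖f y‖ ^ 2 - δ) / (3 * δ) with hg
  have hg1 := (hsq.sub_const δ).mul_const (3 * δ)⁻¹
  have hg2 : HasFDerivAt g ((3 * δ)⁻¹ • (2 • (innerSL ℝ (f z)).comp
      ((ContinuousLinearMap.toSpanSingleton ℂ f').restrictScalars ℝ))) z := by
    refine hg1.congr_of_eventuallyEq (Filter.Eventually.of_forall fun y => ?_)
    simp [hg, div_eq_mul_inv]
  have hσd : HasDerivAt σ (deriv σ (g z)) (g z) :=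
    ((Real.smoothTransition.contDiff (n := 1)).differentiable (by norm_num)).differentiableAt.hasDerivAt
  have hcomp := hσd.comp_hasFDerivAt z hg2
  have hF := hcomp.smul hfR
  have hF' : HasFDerivAt (fun y => chi δ (f y)) _ z := hF
  have hval : I • fderiv ℝ (fun y => chi δ (f y)) z 1 - fderiv ℝ (fun y => chi δ (f y)) z I =
      ((deriv σ (g z) * ((3 * δ)⁻¹ * 2) : ℝ) : ℂ) * f z *
        (I * ((((starRingEnd ℂ) (f z) * f').re : ℝ) : ℂ) +
          ((((starRingEnd ℂ) (f z) * f').im : ℝ) : ℂ)) := by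
    rw [hF'.fderiv]
    simp [Complex.inner]
    ring
  have hunit : ∀ a : ℂ, ‖I * ((a.re : ℝ) : ℂ) + ((a.im : ℝ) : ℂ)‖ = ‖a‖ := by
    intro a
    have e : I * ((a.re : ℝ) : ℂ) + ((a.im : ℝ) : ℂ) = I * (starRingEnd ℂ) a := by
      apply Complex.ext <;> simp
    rw [e, norm_mul, Complex.norm_I, one_mul, RCLike.norm_conj]
  have hnorm : ‖I • fderiv ℝ (fun y => chi δ (f y)) z 1 - fderiv ℝ (fun y => chi δ (f y)) z I‖ =
      |deriv σ (g z)| * ((3 * δ)⁻¹ * 2) * (‖f z‖ ^ 2 * ‖f'‖) := by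
    rw [hval, norm_mul, norm_mul, hunit, norm_mul, RCLike.norm_conj, Complex.norm_real,
      Real.norm_eq_abs, abs_mul, abs_of_pos (by positivity : (0 : ℝ) < (3 * δ)⁻¹ * 2)]
    ring
  have hbig : 4 * δ < ‖f z‖ ^ 2 → deriv σ (g z) = 0 := by
    intro h
    apply hC.2.2
    rw [hg, lt_div_iff₀ (by linarith)]
    linarith
  refine ⟨hF'.differentiableAt, ?_, ?_⟩
  · rw [hnorm]
    by_cases h : 4 * δ < ‖f z‖ ^ 2
    · rw [hbig h, abs_zero, zero_mul, zero_mul]
      positivity
    · rw [not_lt] at h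
      have h1 := hC.1 (g z)
      have h2 : (3 * δ)⁻¹ * 2 * ‖f z‖ ^ 2 ≤ 8 / 3 := by
        rw [inv_mul_eq_div, div_mul_eq_mul_div, div_le_iff₀ (by linarith)]
        linarith
      calc |deriv σ (g z)| * ((3 * δ)⁻¹ * 2) * (‖f z‖ ^ 2 * ‖f'‖)
          = |deriv σ (g z)| * (((3 * δ)⁻¹ * 2 * ‖f z‖ ^ 2) * ‖f'‖) := by ring
        _ ≤ C * (8 / 3 * ‖f'‖) := by
            apply mul_le_mul h1 _ (by positivity) hC0
            exact mul_le_mul_of_nonneg_right h2 (norm_nonneg _)
        _ = 8 / 3 * C * ‖f'‖ := by ring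
  · intro h
    rw [hnorm, hbig h, abs_zero, zero_mul, zero_mul]

/-- an iterated integral is bounded by the area integral -/
theorem enorm_iterated_le (G : ℂ → ℂ) (hG : Measurable G) (a b c d : ℝ) :
    ‖∫ x in a..b, ∫ y in c..d, G (x + y * I)‖ₑ ≤ ∫⁻ z in [[a, b]] ×ℂ [[c, d]], ‖G z‖ₑ := by
  have h1 : ∀ (a b : ℝ) (H : ℝ → ℂ), ‖∫ x in a..b, H x‖ₑ ≤ ∫⁻ x in Ι a b, ‖H x‖ₑ := by
    intro a b H
    have e : ‖∫ x in a..b, H x‖ₑ = ‖∫ x in Ι a b, H x‖ₑ := by
      have := intervalIntegral.norm_integral_eq_norm_integral_uIoc (a := a) (b := b)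
        (μ := volume) H
      rw [← ofReal_norm, ← ofReal_norm, this]
    rw [e]
    exact enorm_integral_le_lintegral_enorm _
  have hm : Measurable fun p : ℝ × ℝ => ‖G (p.1 + p.2 * I)‖ₑ := by
    refine (hG.comp ?_).enorm
    fun_prop
  calc ‖∫ x in a..b, ∫ y in c..d, G (x + y * I)‖ₑ
      ≤ ∫⁻ x in Ι a b, ‖∫ y in c..d, G (x + y * I)‖ₑ := h1 _ _ _
    _ ≤ ∫⁻ x in Ι a b, ∫⁻ y in Ι c d, ‖G (x + y * I)‖ₑ := lintegral_mono fun x => h1 _ _ _
    _ = ∫⁻ p in Ι a b ×ˢ Ι c d, ‖G (p.1 + p.2 * I)‖ₑ := by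
        rw [Measure.volume_eq_prod, ← Measure.prod_restrict,
          lintegral_prod _ hm.aemeasurable]
    _ ≤ ∫⁻ p in [[a, b]] ×ˢ [[c, d]], ‖G (p.1 + p.2 * I)‖ₑ :=
        lintegral_mono_set (prod_mono uIoc_subset_uIcc uIoc_subset_uIcc)
    _ = ∫⁻ z in [[a, b]] ×ℂ [[c, d]], ‖G z‖ₑ := by
        have hpre : Complex.measurableEquivRealProd ⁻¹' ([[a, b]] ×ˢ [[c, d]]) =
            [[a, b]] ×ℂ [[c, d]] := by
          ext z
          rw [mem_preimage, mem_prod, mem_reProdIm, Complex.measurableEquivRealProd_apply]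
        have := (Complex.volume_preserving_equiv_real_prod).setLIntegral_comp_preimage_emb
          Complex.measurableEquivRealProd.measurableEmbedding
          (fun p : ℝ × ℝ => ‖G (p.1 + p.2 * I)‖ₑ) ([[a, b]] ×ˢ [[c, d]])
        rw [hpre] at this
        rw [← this]
        refine lintegral_congr fun z => ?_
        rw [Complex.measurableEquivRealProd_apply]
        simp

/-- convergence of the boundary integrals -/
theorem tendsto_side {f : ℂ → ℂ} {s : Set ℂ} (hf : ContinuousOn f s) {a b : ℝ} {γ : ℝ → ℂ}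
    (hγ : Continuous γ) (hs : ∀ x ∈ [[a, b]], γ x ∈ s) :
    Tendsto (fun n : ℕ => ∫ x in a..b, chi (1 / ((n : ℝ) + 1)) (f (γ x))) atTop
      (𝓝 (∫ x in a..b, f (γ x))) := by
  have hc : ContinuousOn (fun x => f (γ x)) [[a, b]] := hf.comp hγ.continuousOn hs
  apply intervalIntegral.tendsto_integral_filter_of_dominated_convergence
    (fun x => ‖f (γ x)‖)
  · refine Filter.Eventually.of_forall fun n => ?_
    exact ((continuous_chi.comp_continuousOn hc).mono uIoc_subset_uIcc).aestronglyMeasurable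
      measurableSet_uIoc
  · exact Filter.Eventually.of_forall fun n => Filter.Eventually.of_forall fun x _ =>
      norm_chi_le _ _
  · exact (hc.norm).intervalIntegrable
  · exact Filter.Eventually.of_forall fun x _ => tendsto_chi _

theorem t_RADO (h : S_CAC) : S_RADO := by
  intro f W hW hfc hfd
  obtain ⟨C, hC0, hC⟩ := deriv_bdd
  have hΩ : IsOpen {z | z ∈ W ∧ f z ≠ 0} := by
    have := hfc.isOpen_inter_preimage hW (isOpen_compl_singleton (x := (0 : ℂ)))
    convert this using 1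
    ext z
    simp
  -- the regularised functions
  set δ : ℕ → ℝ := fun n => 1 / ((n : ℝ) + 1) with hδ
  have hδ0 : ∀ n, 0 < δ n := fun n => by simp only [hδ]; positivity
  set F : ℕ → ℂ → ℂ := fun n y => chi (δ n) (f y) with hF
  set G : ℕ → ℂ → ℂ := fun n y => I • fderiv ℝ (F n) y 1 - fderiv ℝ (F n) y I with hG
  have hGm : ∀ n, Measurable (G n) := by
    intro n
    exact ((measurable_fderiv_apply_const ℝ (F n) 1).const_smul I).sub
      (measurable_fderiv_apply_const ℝ (F n) I)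
  -- local properties
  have hloc0 : ∀ n, ∀ z ∈ W, f z = 0 → F n =ᶠ[𝓝 z] fun _ => (0 : ℂ) := by
    intro n z hz hz0
    have h1 : ContinuousAt f z := hfc.continuousAt (hW.mem_nhds hz)
    have h2 : ContinuousAt (fun y => ‖f y‖ ^ 2) z := (h1.norm).pow 2
    have h3 : ‖f z‖ ^ 2 < δ n := by
      rw [hz0]
      simpa using hδ0 n
    filter_upwards [h2.eventually (gt_mem_nhds h3)] with y hy
    exact chi_zero (hδ0 n) (le_of_lt hy)
  have hdiff : ∀ n, ∀ z ∈ W, DifferentiableAt ℝ (F n) z := by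
    intro n z hz
    by_cases hz0 : f z = 0
    · exact (hloc0 n z hz hz0).differentiableAt_iff.mpr (differentiableAt_const _)
    · have h1 : DifferentiableAt ℂ f z := (hfd z ⟨hz, hz0⟩).differentiableAt
        (hΩ.mem_nhds ⟨hz, hz0⟩)
      exact (grad hC (hδ0 n) h1.hasDerivAt).1
  have hGz : ∀ n, ∀ z ∈ W, (f z = 0 ∨ 4 * δ n < ‖f z‖ ^ 2) → G n z = 0 := by
    intro n z hz hz0
    by_cases h0 : f z = 0
    · simp only [hG]
      rw [(hloc0 n z hz h0).fderiv_eq]
      simp
    · have h1 : DifferentiableAt ℂ f z := (hfd z ⟨hz, h0⟩).differentiableAt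
        (hΩ.mem_nhds ⟨hz, h0⟩)
      rcases hz0 with hz0 | hz0
      · exact absurd hz0 h0
      · exact norm_eq_zero.mp ((grad hC (hδ0 n) h1.hasDerivAt).2.2 hz0)
  have hGb : ∀ n, ∀ z ∈ W, f z ≠ 0 → ‖G n z‖ ≤ 8 / 3 * C * ‖deriv f z‖ := by
    intro n z hz h0
    have h1 : DifferentiableAt ℂ f z := (hfd z ⟨hz, h0⟩).differentiableAt
      (hΩ.mem_nhds ⟨hz, h0⟩)
    exact (grad hC (hδ0 n) h1.hasDerivAt).2.1
  -- local argument
  intro c hc
  obtain ⟨r, hr0, hr⟩ : ∃ r > 0, closedBall c r ⊆ W := by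
    obtain ⟨r, hr0, hr⟩ := Metric.isOpen_iff.mp hW c hc
    exact ⟨r / 2, by positivity, (closedBall_subset_ball (by linarith)).trans hr⟩
  have hball : ball c r ⊆ W := ball_subset_closedBall.trans hr
  -- the dominating functions
  set B : Set ℂ := closedBall c r with hB
  have hfB : ContinuousOn f B := hfc.mono hr
  set Z : Set ℂ := B ∩ f ⁻¹' {0} with hZ
  have hZc : IsClosed Z := hfB.preimage_isClosed_of_isClosed isClosed_closedBall isClosed_singleton
  set A : ℕ → Set ℂ := fun n => B ∩ f ⁻¹' {w | ‖w‖ ^ 2 ≤ 4 * δ n} with hA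
  have hAc : ∀ n, IsClosed (A n) := fun n =>
    hfB.preimage_isClosed_of_isClosed isClosed_closedBall
      (isClosed_le (by fun_prop) continuous_const)
  set Ψ : ℂ → ℝ≥0∞ := fun z => ENNReal.ofReal (8 / 3 * C) * ‖deriv f z‖ₑ with hΨ
  have hΨm : Measurable Ψ := (measurable_deriv f).enorm.const_mul _
  set Φ : ℕ → ℂ → ℝ≥0∞ := fun n => (A n \ Z).indicator Ψ with hΦ
  have hΦm : ∀ n, Measurable (Φ n) := fun n =>
    hΨm.indicator ((hAc n).measurableSet.diff hZc.measurableSet)
  have hGΦ : ∀ n, ∀ z ∈ B, ‖G n z‖ₑ ≤ Φ n z := by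
    intro n z hz
    by_cases h0 : f z = 0
    · rw [hGz n z (hr hz) (Or.inl h0)]
      simp
    · by_cases h1 : 4 * δ n < ‖f z‖ ^ 2
      · rw [hGz n z (hr hz) (Or.inr h1)]
        simp
      · have hmem : z ∈ A n \ Z := ⟨⟨hz, not_lt.mp h1⟩, fun hz' => h0 hz'.2⟩
        simp only [hΦ]
        rw [indicator_of_mem hmem]
        have h2 := hGb n z (hr hz) h0
        rw [← ofReal_norm, hΨ]
        refine (ENNReal.ofReal_le_ofReal h2).trans ?_
        rw [ENNReal.ofReal_mul (by positivity), ofReal_norm]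
  have hfin : ∫⁻ z, (B \ Z).indicator Ψ z ≠ ⊤ := by
    rw [lintegral_indicator (isClosed_closedBall.measurableSet.diff hZc.measurableSet)]
    simp only [hΨ]
    rw [lintegral_const_mul _ (measurable_deriv f).enorm]
    apply ENNReal.mul_ne_top ENNReal.ofReal_ne_top
    have hset : B \ Z = {z | z ∈ closedBall c r ∧ f z ≠ 0} := by
      ext z
      constructor
      · rintro ⟨h1, h2⟩
        exact ⟨h1, fun h3 => h2 ⟨h1, h3⟩⟩
      · rintro ⟨h1, h2⟩
        exact ⟨h1, fun h3 => h2 h3.2⟩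
    have hcac := h f W hW hfc hfd c r hr
    rw [← hset] at hcac
    have hvol : volume (B \ Z) ≠ ⊤ :=
      ((measure_mono sdiff_subset).trans_lt measure_closedBall_lt_top).ne
    have hle : ∫⁻ z in B \ Z, ‖deriv f z‖ₑ ≤ ∫⁻ z in B \ Z, (1 + ‖deriv f z‖ₑ ^ 2) := by
      refine lintegral_mono fun z => ?_
      rcases le_total ‖deriv f z‖ₑ 1 with h1 | h1
      · exact h1.trans le_self_add
      · calc ‖deriv f z‖ₑ = ‖deriv f z‖ₑ * 1 := (mul_one _).symm
          _ ≤ ‖deriv f z‖ₑ * ‖deriv f z‖ₑ := by gcongr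
          _ = ‖deriv f z‖ₑ ^ 2 := (sq _).symm
          _ ≤ 1 + ‖deriv f z‖ₑ ^ 2 := le_add_self
    refine ne_top_of_le_ne_top ?_ hle
    rw [lintegral_add_left measurable_const]
    apply ENNReal.add_ne_top.mpr ⟨?_, hcac⟩
    simpa using hvol
  have hΦ0 : Tendsto (fun n => ∫⁻ z, Φ n z) atTop (𝓝 0) := by
    have h1 := tendsto_lintegral_of_dominated_convergence (μ := volume) (F := Φ)
      (f := fun _ => (0 : ℝ≥0∞)) ((B \ Z).indicator Ψ) hΦm ?_ hfin ?_
    · simpa using h1
    · intro n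
      refine Filter.Eventually.of_forall fun z => ?_
      exact indicator_le_indicator_of_subset (sdiff_subset_sdiff_left inter_subset_left)
        (fun _ => bot_le) z
    · refine Filter.Eventually.of_forall fun z => ?_
      by_cases hz : z ∈ B \ Z
      · have hz0 : f z ≠ 0 := fun h0 => hz.2 ⟨hz.1, h0⟩
        have h1 : Tendsto (fun n : ℕ => 4 * (1 / ((n : ℝ) + 1))) atTop (𝓝 (4 * 0)) :=
          tendsto_one_div_add_atTop_nhds_zero_nat.const_mul 4
        rw [mul_zero] at h1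
        have h2 : (0 : ℝ) < ‖f z‖ ^ 2 := by positivity
        refine tendsto_const_nhds.congr' ?_
        filter_upwards [h1.eventually (gt_mem_nhds h2)] with n hn
        simp only [hΦ]
        rw [indicator_of_notMem]
        rintro ⟨h3, -⟩
        exact absurd h3.2 (not_le.mpr hn)
      · refine tendsto_const_nhds.congr' ?_
        refine Filter.Eventually.of_forall fun n => ?_
        simp only [hΦ]
        rw [indicator_of_notMem]
        exact fun h3 => hz ⟨h3.1.1, h3.2⟩
  -- Morera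
  have hcons : IsConservativeOn f (ball c r) := by
    intro z w hzw
    rw [← add_eq_zero_iff_eq_neg, wedgeIntegral_add_wedgeIntegral_eq]
    set R : Set ℂ := [[z.re, w.re]] ×ℂ [[z.im, w.im]] with hR
    have hRB : R ⊆ B := (show R ⊆ ball c r from hzw).trans ball_subset_closedBall
    have hRm : MeasurableSet R := (isCompact_uIcc.reProdIm isCompact_uIcc).measurableSet
    have key : ∀ n, ‖(∫ x : ℝ in z.re..w.re, F n (x + z.im * I)) -
        (∫ x : ℝ in z.re..w.re, F n (x + w.im * I)) +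
        I • (∫ y : ℝ in z.im..w.im, F n (w.re + y * I)) -
        I • (∫ y : ℝ in z.im..w.im, F n (z.re + y * I))‖ₑ ≤ ∫⁻ z, Φ n z := by
      intro n
      have hle : ∫⁻ z in R, ‖G n z‖ₑ ≤ ∫⁻ z, Φ n z :=
        (setLIntegral_mono (hΦm n) fun z hz => hGΦ n z (hRB hz)).trans
          (setLIntegral_le_lintegral _ _)
      have hint : IntegrableOn (G n) R := by
        refine ⟨(hGm n).aestronglyMeasurable, ?_⟩
        refine lt_of_le_of_lt hle ?_
        refine lt_of_le_of_lt (lintegral_mono ?_) (lt_top_iff_ne_top.mpr hfin)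
        intro z
        exact indicator_le_indicator_of_subset (sdiff_subset_sdiff_left inter_subset_left)
          (fun _ => bot_le) z
      have hst := integral_boundary_rect_of_differentiableOn_real (F n) z w
        (fun y hy => (hdiff n y (hr (hRB hy))).differentiableWithinAt) hint
      rw [hst]
      exact (enorm_iterated_le (G n) (hGm n) _ _ _ _).trans hle
    have hseg : ∀ x ∈ [[z.re, w.re]], ∀ y ∈ [[z.im, w.im]], (x : ℂ) + y * I ∈ B := by
      intro x hx y hy
      apply hRB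
      rw [hR, mem_reProdIm]
      simpa using ⟨hx, hy⟩
    have t1 := tendsto_side (a := z.re) (b := w.re) hfB
      (γ := fun x : ℝ => (x : ℂ) + z.im * I) (by fun_prop)
      (fun x hx => hseg x hx _ left_mem_uIcc)
    have t2 := tendsto_side (a := z.re) (b := w.re) hfB
      (γ := fun x : ℝ => (x : ℂ) + w.im * I) (by fun_prop)
      (fun x hx => hseg x hx _ right_mem_uIcc)
    have t3 := tendsto_side (a := z.im) (b := w.im) hfB
      (γ := fun y : ℝ => (w.re : ℂ) + y * I) (by fun_prop)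
      (fun y hy => hseg _ right_mem_uIcc y hy)
    have t4 := tendsto_side (a := z.im) (b := w.im) hfB
      (γ := fun y : ℝ => (z.re : ℂ) + y * I) (by fun_prop)
      (fun y hy => hseg _ left_mem_uIcc y hy)
    have tt := (((t1.sub t2).add (t3.const_smul I)).sub (t4.const_smul I)).enorm
    have hz0 := le_of_tendsto_of_tendsto' tt hΦ0 (fun n => key n)
    have := le_antisymm hz0 bot_le
    exact enorm_eq_zero.mp this
  have hdb : DifferentiableOn ℂ f (ball c r) :=
    (isConservativeOn_and_continuousOn_iff_isDifferentiableOn isOpen_ball).mp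
      ⟨hcons, hfc.mono hball⟩
  exact ((hdb c (mem_ball_self hr0)).differentiableAt
    (isOpen_ball.mem_nhds (mem_ball_self hr0))).differentiableWithinAt

end Pool.Agent.K1H59.PL.Rado
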