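import Pool.Agent.K1H27.PL.Stm
import Pool.Agent.K1H48.VM.ONE

/-! Project PL, pieces MUL and CTS. -/

set_option autoImplicit false

namespace Pool.Agent.K1H59.PL

open MeasureTheory Set Metric Filter Topology
open scoped ENNReal NNReal
open Pool.Agent.K1H27.VM (IsMul)
open Pool.Agent.K1H27.PL

/-- **MUL** -/
theorem t_MUL : S_MUL := by
  intro S _ μ _ p _ φ hφ hb m hm
  obtain ⟨M0, hM0⟩ := hb
  have hin : ∀ (z : ℂ) (s : S) (r : ℝ), ‖z‖ ≤ r → z - φ s ∈ closedBall (0 : ℂ) (r + |M0|) := by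
    intro z s r hr
    rw [mem_closedBall_zero_iff]
    exact (norm_sub_le _ _).trans (add_le_add hr ((hM0 s).trans (le_abs_self _)))
  have hex : ∀ z : ℂ, ∃ M : Lp ℂ p μ →L[ℂ] Lp ℂ p μ, IsMul (fun s => m (z - φ s)) M := by
    intro z
    obtain ⟨C, hC⟩ := (isCompact_closedBall (0 : ℂ) (‖z‖ + |M0|)).exists_bound_of_continuousOn
      hm.continuousOn
    exact K1H48.VM.exMul (ψ := fun s => m (z - φ s)) (hm.measurable.comp (measurable_const.sub hφ))
      (C := C) (fun s => hC _ (hin z s _ le_rfl))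
  choose M hM using hex
  refine ⟨M, ?_, hM⟩
  rw [continuous_iff_continuousAt]
  intro z0
  rw [Metric.continuousAt_iff]
  intro ε hε
  have huc := (isCompact_closedBall (0 : ℂ) (‖z0‖ + 1 + |M0|)).uniformContinuousOn_of_continuous
    hm.continuousOn
  rw [Metric.uniformContinuousOn_iff] at huc
  obtain ⟨δ, hδ, h⟩ := huc (ε / 2) (by positivity)
  refine ⟨min δ 1, lt_min hδ one_pos, fun {z} hz => ?_⟩
  have hz1 : ‖z‖ ≤ ‖z0‖ + 1 := by
    have h1 : dist z z0 < 1 := lt_of_lt_of_le hz (min_le_right _ _)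
    rw [dist_eq_norm] at h1
    have h2 : ‖z‖ ≤ ‖z0‖ + ‖z - z0‖ := by
      have := norm_add_le z0 (z - z0)
      rwa [add_sub_cancel] at this
    linarith
  rw [dist_eq_norm]
  refine lt_of_le_of_lt (K1H48.VM.im_norm_le (K1H48.VM.im_sub (hM z) (hM z0))
    (C := ε / 2) (by positivity) (fun s => ?_)) (by linarith)
  have h3 := h (z - φ s) (hin z s _ hz1) (z0 - φ s) (hin z0 s _ (by linarith)) (by
    rw [dist_sub_right]
    exact lt_of_lt_of_le hz (min_le_left _ _))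
  rw [dist_eq_norm] at h3
  exact h3.le

theorem sq_inv (ζ : ℂ) : ((‖ζ‖ ^ 2 : ℝ) : ℂ) * ζ⁻¹ = (starRingEnd ℂ) ζ := by
  by_cases h : ζ = 0
  · subst h; simp
  · rw [← Complex.normSq_eq_norm_sq, ← Complex.mul_conj]
    field_simp

/-- **CTS** -/
theorem t_CTS : S_CTS := by
  intro P hP
  have hP0 : 0 < P := by linarith
  have hP1 : 0 < 1 / P := by positivity
  have hP2 : 1 / P < 1 := by rw [div_lt_one hP0]; exact hP
  refine ⟨fun ε hε => ⟨?_, ?_, ?_, ?_⟩, fun ε hε ζ => ?_, fun ε hε ζ => ⟨?_, ?_⟩⟩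
  · have h : (fun ζ : ℂ => chi ε ζ * bb P ζ) =
        fun ζ => ((‖ζ‖ ^ (1 / P) / (‖ζ‖ ^ 2 + ε) : ℝ) : ℂ) * (starRingEnd ℂ) ζ := by
      funext ζ
      rw [← sq_inv, chi, bb]
      push_cast
      ring
    rw [h]
    refine (Complex.continuous_ofReal.comp ?_).mul Complex.continuous_conj
    refine (continuous_norm.rpow_const (fun _ => Or.inr hP1.le)).div
      ((continuous_norm.pow 2).add continuous_const) (fun ζ => ?_)
    positivity
  · have h : (fun ζ : ℂ => chi ε ζ * aa P ζ) =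
        fun ζ => ((‖ζ‖ ^ (2 - 1 / P) / (‖ζ‖ ^ 2 + ε) : ℝ) : ℂ) := by
      funext ζ
      rw [chi, aa, ← Complex.ofReal_mul]
      congr 1
      rcases (norm_nonneg ζ).eq_or_lt with h0 | h0
      · rw [← h0, Real.zero_rpow (by linarith : (2 - 1 / P) ≠ 0)]
        simp
      · rw [sub_eq_add_neg, Real.rpow_add h0]
        have : ‖ζ‖ ^ (2 : ℝ) = ‖ζ‖ ^ 2 := by
          rw [← Real.rpow_natCast]; norm_num
        rw [this]
        ring
    rw [h]
    refine Complex.continuous_ofReal.comp ?_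
    refine (continuous_norm.rpow_const (fun _ => Or.inr (by linarith))).div
      ((continuous_norm.pow 2).add continuous_const) (fun ζ => ?_)
    positivity
  · unfold chi
    refine Complex.continuous_ofReal.comp ?_
    refine (continuous_norm.pow 2).div ((continuous_norm.pow 2).add continuous_const) (fun ζ => ?_)
    positivity
  · unfold nn
    exact Complex.continuous_ofReal.comp (continuous_norm.rpow_const (fun _ => Or.inr hP1.le))
  · have hx : (0 : ℝ) ≤ ‖ζ‖ ^ 2 := by positivity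
    have hd : 0 < ‖ζ‖ ^ 2 + ε := by positivity
    have h1 : nn P ζ - chi ε ζ * nn P ζ = ((‖ζ‖ ^ (1 / P) * (ε / (‖ζ‖ ^ 2 + ε)) : ℝ) : ℂ) := by
      rw [nn, chi, ← Complex.ofReal_mul, ← Complex.ofReal_sub]
      congr 1
      field_simp
      ring
    rw [h1, Complex.norm_real, Real.norm_eq_abs, abs_of_nonneg (by positivity)]
    have h2 : ‖ζ‖ ^ (1 / P) = (‖ζ‖ ^ 2) ^ (1 / (2 * P)) := by
      rw [← Real.rpow_natCast ‖ζ‖ 2, ← Real.rpow_mul (norm_nonneg ζ)]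
      congr 1
      push_cast
      field_simp
    have ha : 1 / (2 * P) = 1 / P / 2 := by field_simp
    have h3 := Real.geom_mean_le_arith_mean2_weighted (w₁ := 1 / (2 * P)) (w₂ := 1 - 1 / (2 * P))
      (p₁ := ‖ζ‖ ^ 2) (p₂ := ε) (by positivity) (by rw [ha]; linarith) hx hε.le (by ring)
    have h4 : (1 / (2 * P)) * ‖ζ‖ ^ 2 + (1 - 1 / (2 * P)) * ε ≤ ‖ζ‖ ^ 2 + ε := by
      have h5 : 0 ≤ 1 / (2 * P) := by positivity
      have h6 : 1 / (2 * P) ≤ 1 := by rw [ha]; linarith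
      nlinarith
    have h5 : ε = ε ^ (1 - 1 / (2 * P)) * ε ^ (1 / (2 * P)) := by
      rw [← Real.rpow_add hε, sub_add_cancel, Real.rpow_one]
    rw [h2, ← mul_div_assoc, div_le_iff₀ hd]
    calc (‖ζ‖ ^ 2) ^ (1 / (2 * P)) * ε
        = ((‖ζ‖ ^ 2) ^ (1 / (2 * P)) * ε ^ (1 - 1 / (2 * P))) * ε ^ (1 / (2 * P)) := by
          conv_lhs => rw [h5]
          ring
      _ ≤ (‖ζ‖ ^ 2 + ε) * ε ^ (1 / (2 * P)) :=
          mul_le_mul_of_nonneg_right (h3.trans h4) (Real.rpow_nonneg hε.le _)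
      _ = ε ^ (1 / (2 * P)) * (‖ζ‖ ^ 2 + ε) := mul_comm _ _
  · by_cases h : ζ = 0
    · subst h
      simp [chi]
    · rw [bb, nn]
      field_simp
  · by_cases h : ζ = 0
    · subst h
      simp [chi]
    · rw [nn, aa]
      have h0 : 0 < ‖ζ‖ := norm_pos_iff.2 h
      have h1 : ((‖ζ‖ ^ (1 / P) : ℝ) : ℂ) * ((‖ζ‖ ^ (-(1 / P)) : ℝ) : ℂ) = 1 := by
        rw [← Complex.ofReal_mul, ← Real.rpow_add h0, add_neg_cancel, Real.rpow_zero,
          Complex.ofReal_one]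
      calc ((‖ζ‖ ^ (1 / P) : ℝ) : ℂ) * (chi ε ζ * ((‖ζ‖ ^ (-(1 / P)) : ℝ) : ℂ))
          = chi ε ζ * (((‖ζ‖ ^ (1 / P) : ℝ) : ℂ) * ((‖ζ‖ ^ (-(1 / P)) : ℝ) : ℂ)) := by ring
        _ = chi ε ζ := by rw [h1, mul_one]

end Pool.Agent.K1H59.PL
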