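import Pool.Agent.K1H49.PL.Stm

/-! Piece ITER of the project PL (MP_0ff3ec_lc). -/

namespace Pool.Agent.K1H59.PL

open Pool.Agent.K1H49.PL

universe u

variable {M : Type u}

theorem D_eq (Y : Sys M) {α V : Type} [Finite V] (f g : V → α) :
    Y.D {v : α → M | ∀ i, v (f i) = v (g i)} := by
  classical
  have := Fintype.ofFinite V
  have h : ∀ s : Finset V, Y.D {v : α → M | ∀ i ∈ s, v (f i) = v (g i)} := by
    intro s
    induction s using Finset.induction_on with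
    | empty =>
      have e : {v : α → M | ∀ i ∈ (∅ : Finset V), v (f i) = v (g i)} = Set.univ := by
        ext v; simp
      rw [e]; exact Y.univ
    | insert a s _ ih =>
      have e : {v : α → M | ∀ i ∈ insert a s, v (f i) = v (g i)} =
          {v : α → M | v (f a) = v (g a)} ∩ {v : α → M | ∀ i ∈ s, v (f i) = v (g i)} := by
        ext v; simp
      rw [e]; exact Y.inter (Y.eq _ _) ih
  have h2 := h Finset.univ
  have e : {v : α → M | ∀ i ∈ (Finset.univ : Finset V), v (f i) = v (g i)} =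
      {v : α → M | ∀ i, v (f i) = v (g i)} := by
    ext v; simp
  rw [e] at h2
  exact h2

theorem D2_pull (Y : Sys M) {A B C : Type} {R : (A → M) → (B → M) → Prop} (hR : Y.D2 R)
    (f : A → C) (g : B → C) : Y.D {v : C → M | R (v ∘ f) (v ∘ g)} :=
  Y.pull (Sum.elim f g) hR

theorem D2_bp (Y : Sys M) {X V : Type} {β : (X → M) → (V → M) → Prop} (hβ : Y.D2 β) :
    Y.D2 (bp β) :=
  Y.inter (D2_pull Y hβ (Sum.inl ∘ Sum.inl) Sum.inr)
    (D2_pull Y hβ (Sum.inl ∘ Sum.inr ∘ Sum.inl) Sum.inr)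

theorem D2_ap (Y : Sys M) {Z V : Type} {α : (Z → M) → (V → M) → Prop} (hα : Y.D2 α) :
    Y.D2 (ap α) :=
  Y.inter (D2_pull Y hα (Sum.inl ∘ Sum.inl) Sum.inr)
    (D2_pull Y hα (Sum.inl ∘ Sum.inr ∘ Sum.inl) Sum.inr)

theorem D2_gp (Y : Sys M) {X V Z : Type} [Finite V] {β : (X → M) → (V → M) → Prop}
    {α : (Z → M) → (V → M) → Prop} {γ : (X → M) → (Z → M) → Prop} (hβ : Y.D2 β) (hα : Y.D2 α)
    (hγ : Y.D2 γ) : Y.D2 (gp β α γ) := by
  have h := Y.inter (D2_pull (C := (X ⊕ (X ⊕ V)) ⊕ (Z ⊕ (Z ⊕ V))) Y hγ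
      (Sum.inl ∘ Sum.inl) (Sum.inr ∘ Sum.inl))
    (Y.inter (D2_pull Y hγ (Sum.inl ∘ Sum.inl) (Sum.inr ∘ Sum.inr ∘ Sum.inl))
      (Y.inter (D2_pull Y hγ (Sum.inl ∘ Sum.inr ∘ Sum.inl) (Sum.inr ∘ Sum.inl))
        (Y.inter (D2_pull Y hβ (Sum.inl ∘ Sum.inr ∘ Sum.inl) (Sum.inl ∘ Sum.inr ∘ Sum.inr))
          (Y.inter (D2_pull Y hα (Sum.inr ∘ Sum.inr ∘ Sum.inl) (Sum.inr ∘ Sum.inr ∘ Sum.inr))
            (D_eq Y (fun i : V => Sum.inl (Sum.inr (Sum.inr i)))
              (fun i : V => Sum.inr (Sum.inr (Sum.inr i))))))))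
  have e : {v : (X ⊕ (X ⊕ V)) ⊕ (Z ⊕ (Z ⊕ V)) → M | gp β α γ (v ∘ Sum.inl) (v ∘ Sum.inr)} =
      {v | γ (v ∘ Sum.inl ∘ Sum.inl) (v ∘ Sum.inr ∘ Sum.inl)} ∩
      ({v | γ (v ∘ Sum.inl ∘ Sum.inl) (v ∘ Sum.inr ∘ Sum.inr ∘ Sum.inl)} ∩
      ({v | γ (v ∘ Sum.inl ∘ Sum.inr ∘ Sum.inl) (v ∘ Sum.inr ∘ Sum.inl)} ∩
      ({v | β (v ∘ Sum.inl ∘ Sum.inr ∘ Sum.inl) (v ∘ Sum.inl ∘ Sum.inr ∘ Sum.inr)} ∩
      ({v | α (v ∘ Sum.inr ∘ Sum.inr ∘ Sum.inl) (v ∘ Sum.inr ∘ Sum.inr ∘ Sum.inr)} ∩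
      {v | ∀ i : V, v (Sum.inl (Sum.inr (Sum.inr i))) =
        v (Sum.inr (Sum.inr (Sum.inr i)))})))) := by
    ext v
    constructor
    · rintro ⟨h1, h2, h3, h4, h5, h6⟩
      exact ⟨h1, h2, h3, h4, h5, fun i => congrFun h6 i⟩
    · rintro ⟨h1, h2, h3, h4, h5, h6⟩
      exact ⟨h1, h2, h3, h4, h5, funext h6⟩
  unfold Sys.D2
  rw [e]
  exact h

theorem main (Y : Sys M) {V : Type} [Finite V]
    (H : ∀ (X Z : Type) [Finite X] [Finite Z]
      (β : (X → M) → (V → M) → Prop) (α : (Z → M) → (V → M) → Prop)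
      (γ : (X → M) → (Z → M) → Prop), Y.D2 β → Y.D2 α → Y.D2 γ → S1 β α γ →
        S1 (bp β) (ap α) (gp β α γ)) (w : ℕ) :
    ∀ (X Z : Type) [Finite X] [Finite Z]
      (β : (X → M) → (V → M) → Prop) (α : (Z → M) → (V → M) → Prop)
      (γ : (X → M) → (Z → M) → Prop), Y.D2 β → Y.D2 α → Y.D2 γ → S1 β α γ → MW β α γ w := by
  induction w with
  | zero =>
    intro X Z _ _ β α γ dβ dα dγ hS
    obtain ⟨y, z, -, h⟩ := hS
    obtain ⟨x, -, hx⟩ := h []
    exact ⟨fun i => i.elim0, fun _ => x, fun _ => z [], fun _ i => i.elim0, fun _ i => i.elim0,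
      fun _ _ _ => hx [] (List.prefix_refl _)⟩
  | succ w ih =>
    intro X Z _ _ β α γ dβ dα dγ hS
    obtain ⟨a, x, z, hb, ha, hg⟩ := ih (X ⊕ (X ⊕ V)) (Z ⊕ (Z ⊕ V))
      (bp β) (ap α) (gp β α γ) (D2_bp Y dβ) (D2_ap Y dα) (D2_gp Y dβ dα dγ)
      (H X Z β α γ dβ dα dγ hS)
    have h00 := hg (fun _ => false) (fun _ => false) (by simp)
    have hxA : ∀ A, x A ∘ Sum.inr ∘ Sum.inr = x (fun _ => false) ∘ Sum.inr ∘ Sum.inr := by
      intro A
      have h1 := hg A (fun _ => false) (by simp)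
      rw [h1.2.2.2.2.2, h00.2.2.2.2.2]
    have hzB : ∀ B, z B ∘ Sum.inr ∘ Sum.inr = x (fun _ => false) ∘ Sum.inr ∘ Sum.inr := by
      intro B
      have h1 := hg (fun _ => false) B (by simp)
      rw [← h1.2.2.2.2.2]
    refine ⟨Fin.snoc (α := fun _ => V → M) a (x (fun _ => false) ∘ Sum.inr ∘ Sum.inr),
      fun A => if A (Fin.last w) = true then x (fun i => A i.castSucc) ∘ Sum.inr ∘ Sum.inl
        else x (fun i => A i.castSucc) ∘ Sum.inl,
      fun B => if B (Fin.last w) = true then z (fun i => B i.castSucc) ∘ Sum.inr ∘ Sum.inl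
        else z (fun i => B i.castSucc) ∘ Sum.inl, ?_, ?_, ?_⟩
    · intro A i hi
      simp only
      refine Fin.lastCases (motive := fun i => A i = true → β _ (Fin.snoc (α := fun _ => V → M) a
        (x (fun _ => false) ∘ Sum.inr ∘ Sum.inr) i)) ?_ ?_ i hi
      · intro hl
        rw [if_pos hl, Fin.snoc_last, ← hxA (fun i => A i.castSucc)]
        exact (hg _ (fun _ => false) (by simp)).2.2.2.1
      · intro j hj
        rw [Fin.snoc_castSucc]
        have h1 := hb (fun i => A i.castSucc) j hj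
        split_ifs
        · exact h1.2
        · exact h1.1
    · intro B i hi
      simp only
      refine Fin.lastCases (motive := fun i => B i = true → α _ (Fin.snoc (α := fun _ => V → M) a
        (x (fun _ => false) ∘ Sum.inr ∘ Sum.inr) i)) ?_ ?_ i hi
      · intro hl
        rw [if_pos hl, Fin.snoc_last, ← hzB (fun i => B i.castSucc)]
        exact (hg (fun _ => false) _ (by simp)).2.2.2.2.1
      · intro j hj
        rw [Fin.snoc_castSucc]
        have h1 := ha (fun i => B i.castSucc) j hj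
        split_ifs
        · exact h1.2
        · exact h1.1
    · intro A B hAB
      simp only
      have h1 := hg (fun i => A i.castSucc) (fun i => B i.castSucc) (fun i => hAB i.castSucc)
      have h2 := hAB (Fin.last w)
      by_cases hA : A (Fin.last w) = true
      · have hB : ¬ B (Fin.last w) = true := fun h => h2 ⟨hA, h⟩
        rw [if_pos hA, if_neg hB]
        exact h1.2.2.1
      · by_cases hB : B (Fin.last w) = true
        · rw [if_neg hA, if_pos hB]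
          exact h1.2.1
        · rw [if_neg hA, if_neg hB]
          exact h1.1

theorem t_ITER : S_ITER.{u} := by
  intro M Y H X V Z hX hV hZ β α γ dβ dα dγ hS w
  exact main Y (fun X Z _ _ β α γ dβ dα dγ hS => H X V Z β α γ dβ dα dγ hS) w X Z β α γ dβ dα dγ hS

end Pool.Agent.K1H59.PL
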